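import Pool.Agent.Results.MP_005f52_nt.EntranceLaw
import Pool.Agent.Q138.PS.UD

/-!
# The Syracuse orbits of the numbers `-⌊α P(n)⌋`

Let `q ≥ 2`. Outside a set of real numbers of Hausdorff dimension at most `q / (q + 1 / (q 2 ^ (q - 1)))` (that is
`8 / 9` for `q = 2`) every `α > 0` has the following property: for the integral polynomials `P` of degree `q` the proportion of the
odd numbers `-⌊α P(n)⌋` in the basin of a cycle of the Syracuse map, and the limit law of the entrance times, also in residue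
classes, are those for all negative odd integers, uniformly in `P`.
-/

set_option autoImplicit false

namespace Pool.Agent.Results.MP_005f52_nt.EntranceAlongRealMultiples

open Finset Filter Topology
open Pool.Agent.Q138.PS
open Pool.Agent.Results.MP_005f52_nt.EntranceLaw (Syr IsCycle Enters HasDensity bound Phi C₁ C₂ C₃)

/-- `m` is odd and the orbit of `-m` meets `Z` -/
def Meets (Z : Finset ℤ) (m : ℕ) : Prop := Odd m ∧ ∃ k : ℕ, Syr^[k] (-(m : ℤ)) ∈ Z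

/-- `m` is odd and the orbit of `-m` enters `Z` after exactly `k ≡ b (mod Q)` steps -/
def EntersMod (Z : Finset ℤ) (Q : ℕ) (b : ℤ) (m : ℕ) : Prop :=
  Odd m ∧ ∃ k : ℕ, Enters Z k (-(m : ℤ)) ∧ (k : ℤ) ≡ b [ZMOD Q]

/-- `m` is odd and the orbit of `-m` enters `Z` after exactly `k ≡ b (mod Q)` steps, `k ≤ bound x (-m)` -/
def Level (Z : Finset ℤ) (Q : ℕ) (b : ℤ) (x : ℝ) (m : ℕ) : Prop :=
  Odd m ∧ ∃ k : ℕ, Enters Z k (-(m : ℤ)) ∧ (k : ℝ) ≤ bound x (-(m : ℤ)) ∧ (k : ℤ) ≡ b [ZMOD Q]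

theorem bound_mono (n : ℤ) {x y : ℝ} (h : x ≤ y) : bound x n ≤ bound y n := by
  unfold bound
  have h3 : 0 ≤ Real.log 2 := Real.log_nonneg (by norm_num)
  have : 0 ≤ Real.log 2 * Real.sqrt (2 * Real.log |(n : ℝ)| / Real.log (4 / 3) ^ 3) := by positivity
  nlinarith

theorem phi_cont : Continuous Phi := by
  have : Phi = Pool.Agent.H499R2.ND.Phi := by
    funext x
    unfold Phi
    rw [← Pool.Agent.H499R2.ND.phi_cdf]
  rw [this]
  exact Pool.Agent.H499R2.ND.Phi_continuous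

theorem odd_dn {P : ℤ → Prop} {δ : ℝ} (h : HasDensity P δ) : Dn (fun m : ℕ => Odd m ∧ P (-(m : ℤ))) (δ / 2) := by
  refine dn_of ((h.div_const 2).congr fun N => ?_)
  have e : {M : ℤ | -(N : ℤ) ≤ M ∧ M < 0 ∧ Odd M ∧ P M} =
      (fun n : ℕ => -(n : ℤ)) '' {n : ℕ | 1 ≤ n ∧ n ≤ N ∧ Odd n ∧ P (-(n : ℤ))} := by
    ext M
    constructor
    · rintro ⟨g1, g2, g3, g4⟩
      have g3' := Int.odd_iff.1 g3
      refine ⟨M.natAbs, ⟨by omega, by omega, ?_, ?_⟩, ?_⟩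
      · rw [Nat.odd_iff]
        omega
      · have : -((M.natAbs : ℕ) : ℤ) = M := by omega
        rw [this]; exact g4
      · show -((M.natAbs : ℕ) : ℤ) = M
        omega
    · rintro ⟨n, ⟨g1, g2, g3, g4⟩, rfl⟩
      rw [Nat.odd_iff] at g3
      refine ⟨?_, ?_, ?_, g4⟩
      · show -(N : ℤ) ≤ -(n : ℤ)
        omega
      · show -(n : ℤ) < 0
        omega
      · rw [Int.odd_iff]
        show -(n : ℤ) % 2 = 1
        omega
  rw [e, Set.ncard_image_of_injective _ (fun a b hab => by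
    have : -(a : ℤ) = -(b : ℤ) := hab
    omega)]
  ring

theorem meets_dn {Z : Finset ℤ} {d : ℝ} (h : HasDensity (fun N => ∃ k : ℕ, Syr^[k] N ∈ Z) d) : Dn (Meets Z) (d / 2) :=
  odd_dn (P := fun N => ∃ k : ℕ, Syr^[k] N ∈ Z) h

theorem enters_dn {Z : Finset ℤ} {Q : ℕ} {b : ℤ} {d : ℝ}
    (h : HasDensity (fun N => ∃ k : ℕ, Enters Z k N ∧ (k : ℤ) ≡ b [ZMOD Q]) d) : Dn (EntersMod Z Q b) (d / 2) :=
  odd_dn (P := fun N => ∃ k : ℕ, Enters Z k N ∧ (k : ℤ) ≡ b [ZMOD Q]) h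

theorem level_dn {Z : Finset ℤ} {Q : ℕ} {b : ℤ} {x d : ℝ}
    (h : HasDensity (fun N => ∃ k : ℕ, Enters Z k N ∧ (k : ℝ) ≤ bound x N ∧ (k : ℤ) ≡ b [ZMOD Q]) d) :
    Dn (Level Z Q b x) (d / 2) :=
  odd_dn (P := fun N => ∃ k : ℕ, Enters Z k N ∧ (k : ℝ) ≤ bound x N ∧ (k : ℤ) ≡ b [ZMOD Q]) h

/-- **Theorem.** For a cycle `Z` of the Syracuse map on the negative odd integers let `δ Z > 0` be the density of its basin among
the negative odd integers; the densities for the three known cycles add up to `1` if and only if the assertion of the question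
holds. For each `q ≥ 2` there is a set `E` of Hausdorff dimension at most `q / (q + 1 / (q 2 ^ (q - 1)))` such that for each
`α > 0` outside `E` the proportions of the `n ≤ N` for which `m = ⌊α P(n)⌋` is odd and the orbit of `-m` meets one of the three
known cycles, meets `Z`, enters `Z` at a time `≡ b (mod Q)`, and has the property `Level Z Q b x`, tend to
`(δ C₁ + δ C₂ + δ C₃) / 2`, `δ Z / 2`, `δ Z / (2 Q)` and `δ Z Phi(x) / (2 Q)`, for all cycles `Z`, `Q ≥ 1`, `b` and real `x`,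
uniformly in `P ∈ ℤ[X]` of degree `q` with positive leading coefficient and coefficients of size at most `N ^ η`. -/
theorem result : ∃ δ : Finset ℤ → ℝ, (∀ Z : Finset ℤ, IsCycle Z → 0 < δ Z) ∧
    (δ C₁ + δ C₂ + δ C₃ = 1 ↔ ∀ N, N < 0 → Odd N → ∃ k : ℕ, Syr^[k] N ∈ C₁ ∪ C₂ ∪ C₃) ∧
    ∀ q : ℕ, 2 ≤ q → ∃ E : Set ℝ, dimH E ≤ ENNReal.ofReal (q / (q + 1 / ((q : ℝ) * 2 ^ (q - 1)))) ∧
      ∀ α : ℝ, 0 < α → α ∉ E → Along q α (Meets (C₁ ∪ C₂ ∪ C₃)) ((δ C₁ + δ C₂ + δ C₃) / 2) ∧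
        ∀ Z : Finset ℤ, IsCycle Z → Along q α (Meets Z) (δ Z / 2) ∧
          ∀ (Q : ℕ) (b : ℤ), 1 ≤ Q → Along q α (EntersMod Z Q b) (δ Z / Q / 2) ∧
            ∀ x : ℝ, Along q α (Level Z Q b x) (δ Z * Phi x / Q / 2) := by
  obtain ⟨-, δ, h1, ⟨-, -, -, h2, h3⟩, -⟩ := Pool.Agent.Results.MP_005f52_nt.EntranceLaw.result
  refine ⟨δ, fun Z hZ => (h1 Z hZ).1, h3, fun q hq => ?_⟩
  obtain ⟨E0, hE0, g0⟩ := along_nat q hq (fun _ : Unit => Meets (C₁ ∪ C₂ ∪ C₃)) (fun _ => (δ C₁ + δ C₂ + δ C₃) / 2)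
    (fun _ => meets_dn h2)
  obtain ⟨E1, hE1, g1⟩ := along_nat q hq (fun Z : {Z : Finset ℤ // IsCycle Z} => Meets Z.1) (fun Z => δ Z.1 / 2)
    (fun Z => meets_dn (h1 Z.1 Z.2).2.1)
  obtain ⟨E2, hE2, g2⟩ := along_nat q hq (fun k : {Z : Finset ℤ // IsCycle Z} × ℕ × ℤ => EntersMod k.1.1 (k.2.1 + 1) k.2.2)
    (fun k => δ k.1.1 / ((k.2.1 + 1 : ℕ) : ℝ) / 2) (fun k => enters_dn ((h1 k.1.1 k.1.2).2.2 (k.2.1 + 1) k.2.2 (by omega)).1)
  obtain ⟨E3, hE3, g3⟩ := along_real (ι := {Z : Finset ℤ // IsCycle Z} × ℕ × ℤ) q hq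
    (fun k x => Level k.1.1 (k.2.1 + 1) k.2.2 x) (fun k x => δ k.1.1 * Phi x / ((k.2.1 + 1 : ℕ) : ℝ) / 2)
    (fun k x x' n hx hn => by
      obtain ⟨e1, t, e2, e3, e4⟩ := hn
      exact ⟨e1, t, e2, e3.trans (bound_mono _ hx), e4⟩)
    (fun k => ((phi_cont.const_mul _).div_const _).div_const _)
    (fun k x => level_dn (((h1 k.1.1 k.1.2).2.2 (k.2.1 + 1) k.2.2 (by omega)).2 x))
  refine ⟨(E0 ∪ E1) ∪ (E2 ∪ E3), ?_, fun α hα hαE => ?_⟩
  · rw [dimH_union, dimH_union, dimH_union]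
    exact max_le (max_le hE0 hE1) (max_le hE2 hE3)
  simp only [Set.mem_union, not_or] at hαE
  obtain ⟨⟨a0, a1⟩, a2, a3⟩ := hαE
  refine ⟨g0 α hα a0 (), fun Z hZ => ⟨g1 α hα a1 ⟨Z, hZ⟩, fun Q b hQ => ?_⟩⟩
  obtain ⟨Q, rfl⟩ : ∃ Q', Q = Q' + 1 := ⟨Q - 1, by omega⟩
  exact ⟨g2 α hα a2 (⟨Z, hZ⟩, Q, b), fun x => g3 α hα a3 (⟨Z, hZ⟩, Q, b) x⟩

end Pool.Agent.Results.MP_005f52_nt.EntranceAlongRealMultiples
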