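import Mathlib
import Pool.Agent.Q74.SP.SH4

set_option autoImplicit false

/-!
The asymptotics of the number of negative odd `N ≥ -x` whose Syracuse orbit enters a finite set after
exactly `k` steps: an oscillating local limit theorem.
-/

namespace Pool.Agent.Results.MP_005f52_nt.EntranceLocalLimit

open Finset Filter Topology MeasureTheory

/-- The Syracuse map. -/
def Syr (N : ℤ) : ℤ := (3 * N + 1) / 2 ^ padicValInt 2 (3 * N + 1)

/-- The orbit of `N` enters `Z` after exactly `k` steps. -/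
def Enters (Z : Finset ℤ) (k : ℕ) (N : ℤ) : Prop := Syr^[k] N ∈ Z ∧ ∀ i < k, Syr^[i] N ∉ Z

/-- `Z` is the set of the terms of a periodic orbit of negative odd integers. -/
def IsCycle (Z : Finset ℤ) : Prop :=
  ∃ (a : ℤ) (p : ℕ), a < 0 ∧ Odd a ∧ 1 ≤ p ∧ Syr^[p] a = a ∧
    Z = (Finset.range p).image fun i => Syr^[i] a

/-- The number of the negative odd `N ≥ -x` whose orbit enters `Z` after exactly `k` steps. -/
noncomputable def W (Z : Finset ℤ) (x : ℝ) (k : ℕ) : ℕ :=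
  {N : ℤ | -x ≤ N ∧ N < 0 ∧ Odd N ∧ Enters Z k N}.ncard

/-- The logarithm of the residue `|Syr^k N|⁻¹ ∏_{i < k} (1 + 1 / (3 Syr^i N))` of an `N` whose orbit
enters `Z` after exactly `k` steps (it is `2^E / (3^k |N|)`, `E` the number of halvings). -/
noncomputable def logRes (k : ℕ) (N : ℤ) : ℝ :=
  (∑ i ∈ range k, Real.log (1 + 1 / (3 * ((Syr^[i] N : ℤ) : ℝ)))) - Real.log |((Syr^[k] N : ℤ) : ℝ)|

/-- The number of the negative odd `N ≥ -X` whose orbit meets `Z` and whose residue has a logarithm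
at least `a`. -/
noncomputable def R (Z : Finset ℤ) (X : ℕ) (a : ℝ) : ℕ :=
  {N : ℤ | -(X : ℤ) ≤ N ∧ N < 0 ∧ Odd N ∧ ∃ k, Enters Z k N ∧ a ≤ logRes k N}.ncard

/-- `1 / 2 < saw u ≤ 1`, of period `log 2`, equal to `e ^ (-u)` for `0 ≤ u < log 2` -/
noncomputable def saw (u : ℝ) : ℝ := Real.exp (Real.log 2 * ⌊u / Real.log 2⌋ - u)

/-- the periodic factor -/
noncomputable def Theta (ν : Measure ℝ) (u : ℝ) : ℝ := ∫ r, saw (u + r) ∂ν

theorem syr_eq : Pool.Agent.Q74.SP.Syr = Syr := rfl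

theorem ent_eq (Z : Finset ℤ) (k : ℕ) (N : ℤ) : Pool.Agent.Q74.SP.Ent Z k N ↔ Enters Z k N := Iff.rfl

theorem syr_neg {N : ℤ} (h : N < 0) (hodd : N % 2 = 1) : Syr N < 0 ∧ Syr N % 2 = 1 := by
  obtain ⟨v, -, h2, h3⟩ := Pool.Agent.Q74.SP.syr_spec hodd
  refine ⟨?_, h3⟩
  by_contra h4
  push Not at h4
  have h5 : 0 ≤ 2 ^ v * Pool.Agent.Q74.SP.Syr N := mul_nonneg (by positivity) h4
  rw [← h2] at h5
  omega

theorem iter_neg {N : ℤ} (h : N < 0) (hodd : N % 2 = 1) (i : ℕ) : Syr^[i] N < 0 ∧ Syr^[i] N % 2 = 1 := by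
  induction i with
  | zero => exact ⟨h, hodd⟩
  | succ i ih =>
    rw [Function.iterate_succ_apply']
    exact syr_neg ih.1 ih.2

theorem lr_eq {Z : Finset ℤ} (hZ : ∀ z ∈ Z, z % 2 = 1) {N : ℤ} (hN : N < 0) (hodd : N % 2 = 1) {k : ℕ}
    (he : Enters Z k N) : Pool.Agent.Q74.SP.lr Z N = logRes k N := by
  rw [Pool.Agent.Q74.SP.ent_lr hZ k N hodd he]
  unfold logRes
  rw [Real.log_abs, syr_eq]
  congr 1
  apply sum_congr rfl
  intro i _
  obtain ⟨h1, -⟩ := iter_neg hN hodd i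
  have h2 : ((Syr^[i] N : ℤ) : ℝ) ≤ -1 := by
    have : Syr^[i] N ≤ -1 := by omega
    exact_mod_cast this
  congr 1
  apply abs_of_pos
  have h3 : 1 / (3 * ((Syr^[i] N : ℤ) : ℝ)) ≥ -(1 / 3) := by
    have h4 : 1 / (3 * ((Syr^[i] N : ℤ) : ℝ)) = -(1 / (3 * -((Syr^[i] N : ℤ) : ℝ))) := by
      rw [mul_neg, div_neg, neg_neg]
    have h5 : 1 / (3 * -((Syr^[i] N : ℤ) : ℝ)) ≤ 1 / 3 := by
      apply one_div_le_one_div_of_le (by norm_num)
      linarith
    rw [h4]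
    linarith
  linarith

/-- LOCAL LIMIT THEOREM FOR THE ENTRANCE TIMES. Let `Z` be a finite set of negative odd integers (for
instance the union of the three known cycles, or any cycle). There is a finite measure `ν` without point
masses on a bounded interval `[-A, A]`, of mass `δ` (the density, among the negative odd integers, of
those whose orbit meets `Z`), `δ > 0` if `Z` contains an integer prime to `3` and so if `Z` contains a
cycle, such that:
(1) `ν` is the limit law of the logarithms of the residues: `2/X R(Z, X, a)` tends to `ν [a, ∞)` for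
all real `a`;
(2) `Θ(u) = ∫ saw (u + r) dν(r)` is continuous, of period `log 2`, with values in `[δ/2, δ]`;
(3) for real `x > 0` and `k` with `|k log (4/3) - log x| ≤ K √k`, the number `W(Z, x, k)` of the negative
odd `N ≥ -x` whose orbit enters `Z` after exactly `k` steps is given by
`√(2 k) / x W(Z, x, k) = log (4/3) / √(2 π) exp(-(k log (4/3) - log x)²/(4 k (log 2)²))
Θ(k log 3 + log x) + o(1)` as `k → ∞`, uniformly. -/
theorem result (Z : Finset ℤ) (hZ : ∀ z ∈ Z, z < 0 ∧ Odd z) :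
    ∃ (ν : Measure ℝ) (A : ℝ), IsFiniteMeasure ν ∧ ν (Set.Icc (-A) A)ᶜ = 0 ∧
    ((∃ z ∈ Z, ¬ (3 : ℤ) ∣ z) → 0 < ν.real Set.univ) ∧
    ((∃ Z' ⊆ Z, IsCycle Z') → 0 < ν.real Set.univ) ∧ (∀ r, ν {r} = 0) ∧
    (∀ a : ℝ, Tendsto (fun X : ℕ => 2 / (X : ℝ) * (R Z X a : ℝ)) atTop (𝓝 (ν.real (Set.Ici a)))) ∧
    Continuous (Theta ν) ∧ (∀ u, Theta ν (u + Real.log 2) = Theta ν u) ∧
    (∀ u, ν.real Set.univ / 2 ≤ Theta ν u ∧ Theta ν u ≤ ν.real Set.univ) ∧
    ∀ K ε : ℝ, 0 < ε → ∃ k0 : ℕ, ∀ k : ℕ, k0 ≤ k → ∀ x : ℝ, 0 < x →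
      |k * Real.log (4 / 3) - Real.log x| ≤ K * √k →
      |√(2 * k) / x * W Z x k - Real.log (4 / 3) / √(2 * Real.pi) *
        Real.exp (-(k * Real.log (4 / 3) - Real.log x) ^ 2 / (4 * k * Real.log 2 ^ 2)) *
        Theta ν (k * Real.log 3 + Real.log x)| ≤ ε := by
  classical
  have hs : (-1 : ℤ) = 1 ∨ (-1 : ℤ) = -1 := Or.inr rfl
  have hZ2 : ∀ z ∈ Z, z % 2 = 1 := fun z hz => Int.odd_iff.1 (hZ z hz).2
  have hL2 : 0 < Real.log 2 := Real.log_pos (by norm_num)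
  obtain ⟨ν, A0, hν, hA0, hna, hlaw⟩ := Pool.Agent.Q74.SP.law_cont hs Z
  obtain ⟨A1, hA1pos, hA1⟩ := Pool.Agent.Q74.SP.lr_bdd Z
  set A := max A0 A1 with hAdef
  have hA : ν (Set.Icc (-A) A)ᶜ = 0 := by
    refine measure_mono_null ?_ hA0
    apply Set.compl_subset_compl.2
    exact Set.Icc_subset_Icc (neg_le_neg (le_max_left _ _)) (le_max_left _ _)
  have hAl : ∀ x, x ≠ 0 → Pool.Agent.Q74.SP.Meets Z x → |Pool.Agent.Q74.SP.lr Z x| ≤ A :=
    fun x h1 h2 => (hA1 x h1 h2).trans (le_max_right _ _)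
  have hApos : 0 ≤ A := hA1pos.le.trans (le_max_right _ _)
  have hcast : ∀ n : ℕ, ((-1 : ℤ) * (n : ℤ)) = -(n : ℤ) := fun n => by ring
  have htheta : Theta ν = Pool.Agent.Q74.SP.ThD ν := by
    funext u
    unfold Theta Pool.Agent.Q74.SP.ThD
    congr 1
    funext r
    unfold saw Pool.Agent.Q74.SP.thD
    have h3 : Real.log 2 ≠ 0 := hL2.ne'
    congr 1
    field_simp
  have hmass : (∃ z ∈ Z, ¬ (3 : ℤ) ∣ z) → 0 < ν.real Set.univ := by
    rintro ⟨z, hz, h3⟩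
    exact Pool.Agent.Q74.SP.mass_pos hs hlaw ⟨z, hz, by have := (hZ z hz).1; omega, h3⟩
  refine ⟨ν, A, hν, hA, hmass, ?_, fun r => Pool.Agent.Q74.SP.NoAtoms.point hna r, ?_, ?_, ?_, ?_, ?_⟩
  · rintro ⟨Z', hZ', a, p, ha, haodd, hp, hper, rfl⟩
    apply hmass
    refine ⟨a, hZ' (mem_image.2 ⟨0, mem_range.2 (by omega), rfl⟩), ?_⟩
    -- `a` is a value of `Syr`
    obtain ⟨q, rfl⟩ : ∃ q, p = q + 1 := ⟨p - 1, by omega⟩
    rw [Function.iterate_succ_apply'] at hper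
    obtain ⟨h1, h2⟩ := iter_neg ha (Int.odd_iff.1 haodd) q
    obtain ⟨v, -, h3, -⟩ := Pool.Agent.Q74.SP.syr_spec h2
    rw [syr_eq, hper] at h3
    rintro ⟨c, hc⟩
    rw [hc] at h3
    have h4 : (3 : ℤ) ∣ 1 := by
      have h5 : (1 : ℤ) = 3 * (2 ^ v * c - Syr^[q] (3 * c)) := by
        rw [← hc]
        rw [← hc] at h3
        nlinarith
      exact ⟨_, h5⟩
    norm_num at h4
  · intro a
    have h1 := Pool.Agent.Q74.SP.law_cdf_odd hs hZ2 hA hna hlaw a
    refine h1.congr fun X => ?_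
    congr 2
    unfold R
    have h2 : {N : ℤ | -(X : ℤ) ≤ N ∧ N < 0 ∧ Odd N ∧ ∃ k, Enters Z k N ∧ a ≤ logRes k N} =
        (((Icc 1 X).filter (fun n : ℕ => n % 2 = 1 ∧ Pool.Agent.Q74.SP.Meets Z (-1 * (n : ℤ)) ∧
          a ≤ Pool.Agent.Q74.SP.lr Z (-1 * (n : ℤ)))).image (fun n : ℕ => -(n : ℤ)) : Finset ℤ) := by
      ext N
      rw [mem_coe, mem_image, Set.mem_ofPred_eq]
      constructor
      · rintro ⟨g1, g2, g3, k, g4, g5⟩
        have g3' := Int.odd_iff.1 g3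
        refine ⟨N.natAbs, ?_, by omega⟩
        have hN : -1 * (N.natAbs : ℤ) = N := by omega
        rw [mem_filter, mem_Icc, hN]
        refine ⟨⟨by omega, by omega⟩, by omega, (Pool.Agent.Q74.SP.meets_ent hZ2 g3').2 ⟨k, g4⟩, ?_⟩
        rw [lr_eq hZ2 g2 g3' g4]
        exact g5
      · rintro ⟨n, hn, rfl⟩
        rw [mem_filter, mem_Icc, hcast] at hn
        obtain ⟨⟨g1, g2⟩, g3, g4, g5⟩ := hn
        obtain ⟨k, hk⟩ := (Pool.Agent.Q74.SP.meets_ent hZ2 (x := -(n : ℤ)) (by omega)).1 g4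
        refine ⟨by omega, by omega, Int.odd_iff.2 (by omega), k, hk, ?_⟩
        rw [← lr_eq hZ2 (by omega) (by omega) hk]
        exact g5
    rw [h2, Set.ncard_coe_finset, card_image_of_injective]
    intro u v huv
    simp only at huv
    omega
  · rw [htheta]
    exact Pool.Agent.Q74.SP.ThD_cont hna
  · intro u
    rw [htheta]
    exact Pool.Agent.Q74.SP.ThD_per u
  · intro u
    rw [htheta]
    exact ⟨Pool.Agent.Q74.SP.ThD_ge u, Pool.Agent.Q74.SP.ThD_le u⟩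
  · intro K ε hε
    obtain ⟨k0, hk0⟩ := Pool.Agent.Q74.SP.sharpH hs hApos hA hAl hna hlaw (abs_nonneg K) hε
    refine ⟨k0, fun k hk x hx hxk => ?_⟩
    have h1 := hk0 k hk x hx
      (hxk.trans (mul_le_mul_of_nonneg_right (le_abs_self K) (Real.sqrt_nonneg _)))
    rw [Pool.Agent.Q74.SP.kappa_eq] at h1
    have hNW : W Z x k = Pool.Agent.Q74.SP.HW (-1) Z x k := by
      unfold W Pool.Agent.Q74.SP.HW
      have h2 : {N : ℤ | -x ≤ N ∧ N < 0 ∧ Odd N ∧ Enters Z k N} =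
          (((Icc 1 ⌊x⌋₊).filter (fun n : ℕ => n % 2 = 1 ∧ Pool.Agent.Q74.SP.Meets Z (-1 * (n : ℤ)) ∧
            Pool.Agent.Q74.SP.odds (Pool.Agent.Q74.SP.time Z (-1 * (n : ℤ))) (-1 * (n : ℤ)) = k)).image
              (fun n : ℕ => -(n : ℤ)) : Finset ℤ) := by
        ext N
        rw [mem_coe, mem_image, Set.mem_ofPred_eq]
        constructor
        · rintro ⟨g1, g2, g3, g4⟩
          have g3' := Int.odd_iff.1 g3
          refine ⟨N.natAbs, ?_, by omega⟩
          have hN : -1 * (N.natAbs : ℤ) = N := by omega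
          rw [mem_filter, mem_Icc, hN]
          obtain ⟨g5, g6⟩ := (Pool.Agent.Q74.SP.ent_iff hZ2 k N g3').2 g4
          refine ⟨⟨by omega, ?_⟩, by omega, g5, g6⟩
          apply Nat.le_floor
          have h3 : ((N.natAbs : ℕ) : ℝ) = -(N : ℝ) := by
            have : ((N.natAbs : ℕ) : ℤ) = -N := by omega
            rw [← Int.cast_natCast, this, Int.cast_neg]
          rw [h3]
          linarith
        · rintro ⟨n, hn, rfl⟩
          rw [mem_filter, mem_Icc, hcast] at hn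
          obtain ⟨⟨g1, g2⟩, g3, g4, g5⟩ := hn
          have hE := (Pool.Agent.Q74.SP.ent_iff hZ2 k (-(n : ℤ)) (by omega)).1 ⟨g4, g5⟩
          have h3 : (n : ℝ) ≤ x := (Nat.le_floor_iff hx.le).1 g2
          refine ⟨?_, by omega, Int.odd_iff.2 (by omega), hE⟩
          push_cast
          linarith
      rw [h2, Set.ncard_coe_finset, card_image_of_injective]
      intro u v huv
      simp only at huv
      omega
    rw [hNW, htheta]
    exact h1

end Pool.Agent.Results.MP_005f52_nt.EntranceLocalLimit
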