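import Pool.Agent.Q158.Pair.Main

/-! # Cycles of the 3x+1 map on the integers: the rate at which trajectories of affinely related points meet

`T` is the map `x ↦ x / 2` (`x` even), `x ↦ (3 x + 1) / 2` (`x` odd) on the integers. In every interval of at least
`2 ^ t` integers all but a proportion `C (1 + a + √log (2 + |b|)) / √t` of the `n` satisfy `T^t n = T^t (3 ^ a n + b)`;
the order `(1 + a) / √t` is sharp for every pair `(a, b) ≠ (0, 0)`. Consequently a set which is invariant under `T`, for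
instance the set of the integers whose trajectory enters a given cycle, contains the values of two affine forms with
slopes of the form `2 ^ i 3 ^ a` and arbitrary constant terms simultaneously, up to a proportion `O(1 / √log L)` of every
interval of `L` integers, with a constant that does not depend on the invariant set or on the interval. -/

namespace Pool.Agent.Results.MP_005f52_nt.MeetingRate

/-- The map of the problem. -/
def T (x : ℤ) : ℤ := if x % 2 = 0 then x / 2 else (3 * x + 1) / 2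

theorem result :
    -- (1) trajectories of `n` and `3 ^ a n + b` have met at time `t`, up to a proportion of order `1 / √t`
    (∃ C : ℝ, ∀ (a : ℕ) (b : ℤ) (t : ℕ), 1 ≤ t → ∀ (M : ℤ) (L : ℕ), 2 ^ t ≤ L →
      (Set.ncard {n : ℤ | M ≤ n ∧ n < M + L ∧ T^[t] n ≠ T^[t] (3 ^ a * n + b)} : ℝ) ≤
        C * (1 + a + √(Real.log (2 + |(b : ℝ)|))) / √t * L) ∧
    -- (2) the rate is sharp for every pair
    (∀ (a : ℕ) (b : ℤ), (a, b) ≠ (0, 0) → ∀ t : ℕ, 1 ≤ t → ∀ (M : ℤ) (L : ℕ), 64 * t * 2 ^ t ≤ L →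
      1 / 64 * min 1 ((1 + a) / √t) * L ≤
        (Set.ncard {n : ℤ | M ≤ n ∧ n < M + L ∧ T^[t] n ≠ T^[t] (3 ^ a * n + b)} : ℝ)) ∧
    -- (3) every invariant set is almost invariant under affine maps, with a uniform rate
    (∃ C : ℝ, ∀ S : Set ℤ, (∀ x, T x ∈ S ↔ x ∈ S) → ∀ (i j a c : ℕ) (b d : ℤ) (M : ℤ) (L : ℕ), 2 ≤ L →
      (Set.ncard {n : ℤ | M ≤ n ∧ n < M + L ∧
          ¬ (2 ^ i * 3 ^ a * n + b ∈ S ↔ 2 ^ j * 3 ^ c * n + d ∈ S)} : ℝ) ≤
        C * (1 + i + j + a + c + √(Real.log (2 + |(b : ℝ)| + |(d : ℝ)|))) / √(Real.log L) * L) := by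
  refine ⟨?_, ?_, ?_⟩
  · obtain ⟨C, _, h⟩ := Pool.Agent.Q158.Pair.upper
    exact ⟨C, h⟩
  · exact Pool.Agent.Q158.Pair.lower
  · obtain ⟨C, _, h⟩ := Pool.Agent.Q158.Pair.invariant
    exact ⟨C, h⟩

end Pool.Agent.Results.MP_005f52_nt.MeetingRate
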