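import Mathlib
import Pool.Agent.Q205.RP.Syr

/-!
# Negative odd integers after a finite verification

`Syr` is the Syracuse map. For `ω : ℤ → {0, 1, 2, 3}` let `W ω n = Syr (n - 2 ω n)` on the negative
odd integers (`ω = 0` gives `Syr`). Suppose that all negative odd `n ≥ -N` reach a set `C` under
`W g`, inside a finite set `D` of places (for `g = 0` and `C` the union of the three known cycles:
the verification of the problem up to `N`). Among all `ω` that agree with `g` on `D` the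
proportion of those for which some negative odd `n` never reaches `C` is at most
`exp (- exp (c √(log N)))`.
-/

set_option autoImplicit false

open MeasureTheory Finset

namespace Pool.Agent.Results.MP_005f52_nt.NegativeOrbitsAfterVerification

/-- The Syracuse map `(3n+1) / 2^v`, with `2^v` the largest power of `2` dividing `3n+1`. -/
def Syr (n : ℤ) : ℤ := (3 * n + 1) / 2 ^ padicValInt 2 (3 * n + 1)

/-- The perturbed Syracuse map: `n` is replaced by `n - 2 ω n`. -/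
def W (ω : ℤ → Fin 4) (n : ℤ) : ℤ := Syr (n - 2 * ((ω n : ℕ) : ℤ))

/-- The law of independent uniform choices from `{0, 1, 2, 3}`, one for each integer. -/
noncomputable def noise : Measure (ℤ → Fin 4) :=
  Measure.infinitePi (fun _ : ℤ => (PMF.uniformOfFintype (Fin 4)).toMeasure)

open Q205.RP in
/-- the orbit of the half steps between two odd places -/
theorem half_steps (ω : ℤ → Fin 4) {n : ℤ} (hn : n % 2 = 1) :
    ∃ t : ℕ, 1 ≤ t ∧ (Tn GS ω)^[t] n = W ω n ∧ W ω n % 2 = 1 ∧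
      ∀ i, 1 ≤ i → i < t → (Tn GS ω)^[i] n % 2 = 0 := by
  set z : ℤ := 3 * (n - 2 * ((ω n : ℕ) : ℤ)) + 1 with hz
  have hz2 : z % 2 = 0 := by rw [hz]; omega
  have hz0 : z ≠ 0 := by rw [hz]; omega
  obtain ⟨w, hw⟩ : ∃ w : ℤ, z = 2 ^ padicValInt 2 z * w := by
    have := padicValInt_dvd (p := 2) z
    exact_mod_cast this
  set v := padicValInt 2 z with hv
  have hwodd : w % 2 = 1 := by
    by_contra hcon
    have h2 : (2 : ℤ) ∣ w := by omega
    obtain ⟨w', rfl⟩ := h2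
    have h3 : ((2 : ℕ) : ℤ) ^ (v + 1) ∣ z := by
      rw [hw]
      exact ⟨w', by push_cast; ring⟩
    have hf : Fact (Nat.Prime 2) := ⟨Nat.prime_two⟩
    rw [padicValInt_dvd_iff] at h3
    rcases h3 with h3 | h3
    · exact hz0 h3
    · rw [← hv] at h3
      omega
  have hv1 : 1 ≤ v := by
    by_contra hcon
    have h0 : v = 0 := by omega
    rw [h0, pow_zero, one_mul] at hw
    omega
  have hW : W ω n = w := by
    show z / 2 ^ v = w
    nth_rewrite 1 [hw]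
    exact Int.mul_ediv_cancel_left _ (by positivity)
  have hstep : ∀ i, i + 1 ≤ v → (Tn GS ω)^[i + 1] n = 2 ^ (v - 1 - i) * w := by
    intro i
    induction i with
    | zero =>
      intro _
      show GS n (ω n) = _
      unfold GS
      rw [if_neg (by omega), ← hz, hw, Nat.sub_zero]
      obtain ⟨u, hu⟩ : ∃ u, v = u + 1 := ⟨v - 1, by omega⟩
      rw [hu, pow_succ, Nat.add_sub_cancel]
      rw [show (2 : ℤ) ^ u * 2 * w = (2 ^ u * w) * 2 by ring]
      exact Int.mul_ediv_cancel _ (by norm_num)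
    | succ i ih =>
      intro hi
      rw [Function.iterate_succ_apply', ih (by omega)]
      show GS _ _ = _
      obtain ⟨u, hu⟩ : ∃ u, v - 1 - i = u + 1 := ⟨v - 1 - i - 1, by omega⟩
      have hu' : v - 1 - (i + 1) = u := by omega
      rw [hu, hu']
      unfold GS
      rw [show (2 : ℤ) ^ (u + 1) * w = (2 ^ u * w) * 2 by ring]
      rw [if_pos (by omega)]
      exact Int.mul_ediv_cancel _ (by norm_num)
  refine ⟨v, hv1, ?_, by rw [hW]; exact hwodd, ?_⟩
  · have := hstep (v - 1) (by omega)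
    rw [show v - 1 + 1 = v by omega] at this
    rw [this, hW]
    simp
  · intro i hi1 hi2
    have := hstep (i - 1) (by omega)
    rw [show i - 1 + 1 = i by omega] at this
    rw [this]
    obtain ⟨u, hu⟩ : ∃ u, v - 1 - (i - 1) = u + 1 := ⟨v - 1 - (i - 1) - 1, by omega⟩
    rw [hu, pow_succ, show (2 : ℤ) ^ u * 2 * w = 2 * (2 ^ u * w) by ring]
    omega

open Q205.RP in
theorem odd_places (ω : ℤ → Fin 4) (j : ℕ) : ∀ {n : ℤ}, n % 2 = 1 →
    (Tn GS ω)^[j] n % 2 = 1 → ∃ k, (W ω)^[k] n = (Tn GS ω)^[j] n := by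
  induction j using Nat.strong_induction_on with
  | _ j ih =>
    intro n hn hj
    rcases Nat.eq_zero_or_pos j with h0 | h0
    · subst h0
      exact ⟨0, rfl⟩
    · obtain ⟨t, ht1, ht2, ht3, ht4⟩ := half_steps ω hn
      have htj : t ≤ j := by
        by_contra hcon
        have := ht4 j h0 (by omega)
        omega
      have h1 : (Tn GS ω)^[j] n = (Tn GS ω)^[j - t] (W ω n) := by
        rw [← ht2, ← Function.iterate_add_apply, show j - t + t = j by omega]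
      rw [h1] at hj ⊢
      obtain ⟨k, hk⟩ := ih (j - t) (by omega) ht3 hj
      exact ⟨k + 1, by rw [Function.iterate_succ_apply]; exact hk⟩

theorem W_iter_eq (ω g : ℤ → Fin 4) (D : Finset ℤ) (h1 : ∀ n ∈ D, ω n = g n)
    (h2 : ∀ n ∈ D, W g n ∈ D) {y : ℤ} (hy : y ∈ D) (k : ℕ) :
    (W ω)^[k] y = (W g)^[k] y ∧ (W g)^[k] y ∈ D := by
  induction k with
  | zero => exact ⟨rfl, hy⟩
  | succ k ih =>
    rw [Function.iterate_succ_apply', Function.iterate_succ_apply', ih.1]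
    refine ⟨?_, h2 _ ih.2⟩
    have h3 := h1 _ ih.2
    show Syr ((W g)^[k] y - 2 * (((ω ((W g)^[k] y)) : ℕ) : ℤ)) =
      Syr ((W g)^[k] y - 2 * (((g ((W g)^[k] y)) : ℕ) : ℤ))
    rw [h3]

theorem main : ∃ c : ℝ, 0 < c ∧ ∃ N₀ : ℕ, ∀ N : ℕ, N₀ ≤ N →
    ∀ (D : Finset ℤ) (g : ℤ → Fin 4) (C : Set ℤ),
    (∀ n ∈ D, n % 2 = 1) → (∀ n : ℤ, -(N : ℤ) ≤ n → n ≤ -1 → n % 2 = 1 → n ∈ D) →
    (∀ n ∈ D, W g n ∈ D) → (∀ n ∈ D, ∃ k : ℕ, (W g)^[k] n ∈ C) →
    noise {ω | (∀ n ∈ D, ω n = g n) ∧ ∃ n : ℤ, n ≤ -1 ∧ n % 2 = 1 ∧ ∀ k : ℕ, (W ω)^[k] n ∉ C} ≤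
      ENNReal.ofReal (Real.exp (-Real.exp (c * Real.sqrt (Real.log N)))) *
        noise {ω | ∀ n ∈ D, ω n = g n} := by
  obtain ⟨c, hc, N₀, h⟩ := Q205.RP.verify_GS
  refine ⟨c, hc, N₀, fun N hN D g C hDodd hD1 hD2 hD3 => ?_⟩
  have h1 := h N hN D g {z | z ≤ -1} (by
    intro z hz a
    have ha : (0 : ℤ) ≤ ((a : ℕ) : ℤ) := by positivity
    simp only [Set.mem_ofPred_eq] at hz ⊢
    unfold Q205.RP.GS
    split_ifs <;> omega) (by
    intro z hz hzN
    simp only [Set.mem_ofPred_eq] at hz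
    rw [abs_of_nonpos (by omega)] at hzN
    rcases Int.emod_two_eq_zero_or_one z with h0 | h0
    · right
      intro a
      unfold Q205.RP.GS
      rw [if_pos h0, abs_of_nonpos (by omega), abs_of_nonpos (by omega)]
      omega
    · left
      exact hD1 z (by omega) hz h0)
  have hnoise : noise = Q205.RP.P 4 := rfl
  rw [hnoise]
  refine (measure_mono ?_).trans h1
  rintro ω ⟨hω, n, hn1, hn2, hn3⟩
  refine ⟨⟨n, hn1, fun j hj => ?_⟩, hω⟩
  obtain ⟨k, hk⟩ := odd_places ω j hn2 (hDodd _ hj)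
  rw [← hk] at hj
  obtain ⟨k', hk'⟩ := hD3 _ hj
  apply hn3 (k' + k)
  rw [Function.iterate_add_apply, (W_iter_eq ω g D hω hD2 hj k').1]
  exact hk'

theorem Syr_spec {m : ℤ} (hm : m % 2 = 1) :
    ∃ v : ℕ, 3 * m + 1 = 2 ^ v * Syr m ∧ Syr m % 2 = 1 := by
  obtain ⟨t, ht1, ht2, ht3, ht4⟩ := half_steps (fun _ => 0) hm
  have hW : W (fun _ => 0) m = Syr m := by
    unfold W
    congr 1
    simp
  rw [hW] at ht3
  refine ⟨padicValInt 2 (3 * m + 1), ?_, ht3⟩
  have h1 : (2 : ℤ) ^ padicValInt 2 (3 * m + 1) ∣ 3 * m + 1 := by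
    have := padicValInt_dvd (p := 2) (3 * m + 1)
    exact_mod_cast this
  exact (Int.mul_ediv_cancel' h1).symm

theorem Syr_dec {m : ℤ} (hm : m % 2 = 1) (hneg : m ≤ -1) (h8 : (3 * m + 1) % 8 = 0) :
    8 * Syr m ≥ 3 * m + 1 ∧ Syr m ≤ -1 ∧ Syr m % 2 = 1 := by
  obtain ⟨v, hv1, hv2⟩ := Syr_spec hm
  have hv3 : 3 ≤ v := by
    by_contra hcon
    have hv : v = 0 ∨ v = 1 ∨ v = 2 := by omega
    rcases hv with h | h | h <;> subst h <;> norm_num at hv1 <;> omega
  obtain ⟨u, rfl⟩ : ∃ u, v = 3 + u := ⟨v - 3, by omega⟩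
  rw [pow_add] at hv1
  norm_num at hv1
  have hu : (1 : ℤ) ≤ 2 ^ u := one_le_pow₀ (by norm_num)
  have hneg' : Syr m ≤ -1 := by
    by_contra hcon
    have h1 : 0 ≤ Syr m := by omega
    have : 0 ≤ 8 * 2 ^ u * Syr m := by positivity
    omega
  refine ⟨?_, hneg', hv2⟩
  rw [hv1]
  nlinarith

/-- a choice that makes trajectories decrease -/
def dec (n : ℤ) : Fin 4 :=
  if (3 * n + 1) % 8 = 0 then 0 else if (3 * n + 1) % 8 = 6 then 1
  else if (3 * n + 1) % 8 = 4 then 2 else 3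

theorem dec_spec {n : ℤ} (hn : n % 2 = 1) : (3 * (n - 2 * ((dec n : ℕ) : ℤ)) + 1) % 8 = 0 := by
  unfold dec
  split_ifs with h1 h2 h3
  · simp only [Fin.isValue, Fin.val_zero]; omega
  · simp only [Fin.isValue, Fin.val_one]; omega
  · simp only [Fin.isValue, Fin.val_two]; omega
  · have : ((3 : Fin 4) : ℕ) = 3 := rfl
    rw [this]
    omega

/-- **Theorem.** The bound for the conditional probability, for every `g`; in particular every
finite verification for `Syr` itself extends to all negative odd integers with positive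
probability. -/
theorem result : (∃ c : ℝ, 0 < c ∧ ∃ N₀ : ℕ, ∀ N : ℕ, N₀ ≤ N →
    ∀ (D : Finset ℤ) (g : ℤ → Fin 4) (C : Set ℤ),
    (∀ n ∈ D, n % 2 = 1) → (∀ n : ℤ, -(N : ℤ) ≤ n → n ≤ -1 → n % 2 = 1 → n ∈ D) →
    (∀ n ∈ D, W g n ∈ D) → (∀ n ∈ D, ∃ k : ℕ, (W g)^[k] n ∈ C) →
    noise {ω | (∀ n ∈ D, ω n = g n) ∧ ∃ n : ℤ, n ≤ -1 ∧ n % 2 = 1 ∧ ∀ k : ℕ, (W ω)^[k] n ∉ C} ≤
      ENNReal.ofReal (Real.exp (-Real.exp (c * Real.sqrt (Real.log N)))) *
        noise {ω | ∀ n ∈ D, ω n = g n}) ∧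
    (∀ (D : Finset ℤ) (C : Set ℤ), -1 ∈ D → -3 ∈ D → (∀ n ∈ D, n ≤ -1 ∧ n % 2 = 1) →
      (∀ n ∈ D, Syr n ∈ D) → (∀ n ∈ D, ∃ k : ℕ, Syr^[k] n ∈ C) →
      0 < noise {ω | (∀ n ∈ D, ω n = 0) ∧
        ∀ n : ℤ, n ≤ -1 → n % 2 = 1 → ∃ k : ℕ, (W ω)^[k] n ∈ C}) := by
  refine ⟨main, ?_⟩
  obtain ⟨c, hc, N₀, h⟩ := main
  intro D₀ C hm1 hm3 hodd hcl hC
  classical
  set g : ℤ → Fin 4 := fun n => if n ∈ D₀ then 0 else dec n with hg
  set D : Finset ℤ := D₀ ∪ (Finset.Icc (-(N₀ : ℤ)) (-1)).filter (fun n => n % 2 = 1) with hD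
  have hWg0 : ∀ n ∈ D₀, W g n = Syr n := by
    intro n hn
    unfold W
    rw [hg]
    simp only [if_pos hn]
    congr 1
    simp
  have hWg1 : ∀ n : ℤ, n ∉ D₀ → n % 2 = 1 → n ≤ -1 → n < W g n ∧ W g n ≤ -1 ∧ W g n % 2 = 1 := by
    intro n hn hn2 hn3
    have h5 : n ≤ -5 := by
      by_contra hcon
      have : n = -1 ∨ n = -3 := by omega
      rcases this with h | h
      · exact hn (h ▸ hm1)
      · exact hn (h ▸ hm3)
    have hgn : g n = dec n := by rw [hg]; simp only [if_neg hn]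
    have hc3 : ((dec n : ℕ) : ℤ) ≤ 3 := by
      have := (dec n).2
      omega
    have hc0 : (0 : ℤ) ≤ ((dec n : ℕ) : ℤ) := by positivity
    have h1 := Syr_dec (m := n - 2 * ((dec n : ℕ) : ℤ)) (by omega) (by omega) (dec_spec hn2)
    unfold W
    rw [hgn]
    refine ⟨?_, h1.2.1, h1.2.2⟩
    omega
  have hDneg : ∀ n ∈ D, n ≤ -1 ∧ n % 2 = 1 := by
    intro n hn
    rw [hD, Finset.mem_union, Finset.mem_filter, Finset.mem_Icc] at hn
    rcases hn with hn | hn
    · exact hodd n hn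
    · exact ⟨hn.1.2, hn.2⟩
  have hclosed : ∀ n ∈ D, W g n ∈ D := by
    intro n hn
    by_cases hn0 : n ∈ D₀
    · rw [hWg0 n hn0]
      exact Finset.mem_union_left _ (hcl n hn0)
    · rw [hD, Finset.mem_union, Finset.mem_filter, Finset.mem_Icc] at hn
      rcases hn with hn | hn
      · exact absurd hn hn0
      · obtain ⟨h1, h2, h3⟩ := hWg1 n hn0 hn.2 hn.1.2
        rw [hD, Finset.mem_union, Finset.mem_filter, Finset.mem_Icc]
        exact Or.inr ⟨⟨by omega, h2⟩, h3⟩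
  have hreach : ∀ b : ℕ, ∀ n ∈ D, n.natAbs = b → ∃ k : ℕ, (W g)^[k] n ∈ C := by
    intro b
    induction b using Nat.strong_induction_on with
    | _ b ih =>
      intro n hn hnb
      by_cases hn0 : n ∈ D₀
      · obtain ⟨k, hk⟩ := hC n hn0
        refine ⟨k, ?_⟩
        have hit : ∀ k, (W g)^[k] n = Syr^[k] n ∧ Syr^[k] n ∈ D₀ := by
          intro k
          induction k with
          | zero => exact ⟨rfl, hn0⟩
          | succ k ihk =>
            rw [Function.iterate_succ_apply', Function.iterate_succ_apply', ihk.1]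
            exact ⟨hWg0 _ ihk.2, hcl _ ihk.2⟩
        rw [(hit k).1]
        exact hk
      · obtain ⟨h1, h2, h3⟩ := hWg1 n hn0 (hDneg n hn).2 (hDneg n hn).1
        obtain ⟨k, hk⟩ := ih (W g n).natAbs (by have := (hDneg n hn).1; omega) (W g n)
          (hclosed n hn) rfl
        exact ⟨k + 1, by rw [Function.iterate_succ_apply]; exact hk⟩
  have h1 := h N₀ le_rfl D g C (fun n hn => (hDneg n hn).2) (by
    intro n h1 h2 h3
    rw [hD, Finset.mem_union, Finset.mem_filter, Finset.mem_Icc]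
    exact Or.inr ⟨⟨h1, h2⟩, h3⟩) hclosed (fun n hn => hreach _ n hn rfl)
  set A := noise {ω | ∀ n ∈ D, ω n = g n} with hA
  have hApos : 0 < A := by
    rw [hA]
    have h2 : noise {ω | ∀ n ∈ D, ω n = g n} = (((4 : ℕ) : ENNReal)⁻¹) ^ D.card :=
      Q205.RP.cyl D g
    rw [h2]
    apply ENNReal.pow_pos
    rw [ENNReal.inv_pos]
    exact ENNReal.natCast_ne_top 4
  have hAfin : A ≠ ⊤ := by
    have : IsProbabilityMeasure noise := inferInstanceAs (IsProbabilityMeasure (Q205.RP.P 4))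
    exact measure_ne_top _ _
  by_contra hcon
  have hzero : noise {ω | (∀ n ∈ D₀, ω n = 0) ∧
      ∀ n : ℤ, n ≤ -1 → n % 2 = 1 → ∃ k : ℕ, (W ω)^[k] n ∈ C} = 0 := by
    simpa using hcon
  have h2 : A ≤ noise {ω | (∀ n ∈ D₀, ω n = 0) ∧
      ∀ n : ℤ, n ≤ -1 → n % 2 = 1 → ∃ k : ℕ, (W ω)^[k] n ∈ C} +
      noise {ω | (∀ n ∈ D, ω n = g n) ∧ ∃ n : ℤ, n ≤ -1 ∧ n % 2 = 1 ∧
        ∀ k : ℕ, (W ω)^[k] n ∉ C} := by
    refine (measure_mono ?_).trans (measure_union_le _ _)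
    intro ω hω
    by_cases hl : ∀ n : ℤ, n ≤ -1 → n % 2 = 1 → ∃ k : ℕ, (W ω)^[k] n ∈ C
    · refine Or.inl ⟨fun n hn => ?_, hl⟩
      rw [hω n (Finset.mem_union_left _ hn), hg]
      simp only [if_pos hn]
    · push Not at hl
      exact Or.inr ⟨hω, hl⟩
  rw [hzero, zero_add] at h2
  have h3 : Real.exp (-Real.exp (c * Real.sqrt (Real.log N₀))) < 1 := by
    rw [Real.exp_lt_one_iff]
    linarith [Real.exp_pos (c * Real.sqrt (Real.log N₀))]
  have h4 : ENNReal.ofReal (Real.exp (-Real.exp (c * Real.sqrt (Real.log N₀)))) < 1 := by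
    rw [← ENNReal.ofReal_one]
    exact (ENNReal.ofReal_lt_ofReal_iff one_pos).2 h3
  have h5 : ENNReal.ofReal (Real.exp (-Real.exp (c * Real.sqrt (Real.log N₀)))) * A < 1 * A :=
    (ENNReal.mul_lt_mul_iff_left hApos.ne' hAfin).2 h4
  rw [one_mul] at h5
  exact absurd (h2.trans h1) (not_le.2 h5)

end Pool.Agent.Results.MP_005f52_nt.NegativeOrbitsAfterVerification
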